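import Pool.Agent.P.MP_edb112_gt.SlackMain

set_option autoImplicit false

open MeasureTheory
open scoped symmDiff

namespace Pool.Agent.Results.MP_edb112_gt.Stability

/-- the unit sphere `S^k` in `ℝ^(k+1)` -/
abbrev Sph (k : ℕ) : Type := Metric.sphere (0 : EuclideanSpace ℝ (Fin (k + 1))) 1

/-- the surface measure of `A`, normalised so that the sphere has measure `1` -/
noncomputable def mu {k : ℕ} (A : Set (Sph k)) : ℝ :=
  ((volume : Measure (EuclideanSpace ℝ (Fin (k + 1)))).toSphere A).toReal /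
    ((volume : Measure (EuclideanSpace ℝ (Fin (k + 1)))).toSphere Set.univ).toReal

/-- the cap with centre `v` and height `c` -/
def cap {k : ℕ} (v : Sph k) (c : ℝ) : Set (Sph k) :=
  {x | c ≤ inner ℝ (x : EuclideanSpace ℝ (Fin (k + 1))) (v : EuclideanSpace ℝ (Fin (k + 1)))}

/-- `d_t(A)`: the supremum, over `t` points of `A`, of their least pairwise distance -/
noncomputable def dt {k : ℕ} (t : ℕ) (A : Set (Sph k)) : ℝ :=
  sSup {r : ℝ | ∃ x : Fin t → Sph k, (∀ i, x i ∈ A) ∧ ∀ i j, i ≠ j → r ≤ dist (x i) (x j)}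

theorem mu_eq {k : ℕ} {A : Set (Sph k)} (hA : MeasurableSet A) :
    mu A = (BL.sph (EuclideanSpace ℝ (Fin (k + 1)))).real (Subtype.val '' A) := by
  have hne : (volume : Measure (EuclideanSpace ℝ (Fin (k + 1)))).toSphere Set.univ ≠ 0 :=
    Measure.measure_univ_ne_zero.2 (Measure.toSphere_ne_zero _)
  rw [mu, BL.toSphere_eq A hA, ENNReal.toReal_mul,
    mul_div_cancel_left₀ _ (ENNReal.toReal_ne_zero.2 ⟨hne, measure_ne_top _ _⟩), Measure.real]

theorem cap_ae {k : ℕ} (v : Sph k) (c : ℝ) :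
    (Subtype.val '' cap v c : Set (EuclideanSpace ℝ (Fin (k + 1)))) =ᵐ[BL.sph _]
      BL.cap (v : EuclideanSpace ℝ (Fin (k + 1))) c := by
  filter_upwards [BL.ae_norm] with x hx
  refine propext ⟨?_, fun h => ⟨⟨x, by simpa using hx⟩, ?_, rfl⟩⟩
  · rintro ⟨y, hy, rfl⟩
    exact le_of_le_of_eq hy (real_inner_comm _ _)
  · exact le_of_le_of_eq h (real_inner_comm _ _)

/-- Linear stability, uniform in the dimension: a measurable set whose `d_t` is at most that of a
cap smaller than a hemisphere differs from a congruent cap by at most `K` times its measure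
deficit. -/
theorem result (t : ℕ) (ht : 3 ≤ t) (ε : ℝ) (hε : 0 < ε) :
    ∃ K : ℝ, 0 < K ∧ ∃ k₀ : ℕ, ∀ k : ℕ, k₀ < k → ∀ A : Set (Sph k), MeasurableSet A →
      ∀ (v : Sph k) (c : ℝ), 0 < c → ε ≤ mu (cap v c) → dt t A ≤ dt t (cap v c) →
        ∃ w : Sph k, mu (A ∆ cap w c) ≤ K * (mu (cap v c) - mu A) := by
  obtain ⟨K, hK, k₀, hk⟩ := BL.stab_weak t ht ε hε
  refine ⟨K, hK, k₀, fun k hk0 A hA v c hc hcε hd => ?_⟩
  have hemb : MeasurableEmbedding (Subtype.val : Sph k → EuclideanSpace ℝ (Fin (k + 1))) :=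
    MeasurableEmbedding.subtype_coe Metric.isClosed_sphere.measurableSet
  have hC : ∀ w : Sph k, MeasurableSet (cap w c) := fun w =>
    (isClosed_le continuous_const (by fun_prop)).measurableSet
  have h1 : ∀ x : Sph k, ‖(x : EuclideanSpace ℝ (Fin (k + 1)))‖ = 1 := fun x => by simp
  have hsq : ∀ y z : Sph k, dist y z ^ 2 =
      2 - 2 * inner ℝ (y : EuclideanSpace ℝ (Fin (k + 1))) (z : EuclideanSpace ℝ (Fin (k + 1))) := by
    intro y z
    rw [Subtype.dist_eq, dist_eq_norm, norm_sub_sq_real, h1, h1]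
    ring
  have hcap : mu (cap v c) = (BL.sph _).real (BL.cap (v : EuclideanSpace ℝ (Fin (k + 1))) c) := by
    rw [mu_eq (hC v), measureReal_congr (cap_ae v c)]
  have hb1 : BL.beta t c ≤ 1 := by
    obtain ⟨x, hx⟩ : (cap v c).Nonempty := by
      rw [Set.nonempty_iff_ne_empty]
      intro h
      rw [h, mu] at hcε
      simp at hcε
      linarith
    have h2 : c ≤ 1 := le_trans hx ((real_inner_le_norm _ _).trans (by rw [h1, h1, mul_one]))
    have h3 : (3 : ℝ) ≤ t := by exact_mod_cast ht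
    rw [BL.beta, div_le_one (by linarith)]
    nlinarith [pow_le_one₀ (n := 2) hc.le h2]
  have hub : dt t (cap v c) ≤ √(2 - 2 * BL.beta t c) := by
    refine Real.sSup_le ?_ (Real.sqrt_nonneg _)
    rintro r ⟨x, hx1, hx2⟩
    rcases le_total r 0 with hr | hr
    · exact hr.trans (Real.sqrt_nonneg _)
    have hb := BL.beta_le (c := c) (b := 1 - r ^ 2 / 2)
      (x := fun i => (x i : EuclideanSpace ℝ (Fin (k + 1)))) (by omega) (h1 v) (fun i => h1 (x i))
      (fun i => le_of_le_of_eq (hx1 i) (real_inner_comm _ _))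
      fun i j hij => by
        have := pow_le_pow_left₀ hr (hx2 i j hij) 2
        rw [hsq] at this
        linarith
    rw [max_eq_left hc.le] at hb
    exact Real.le_sqrt_of_sq_le (by linarith)
  obtain ⟨w, hw, h2⟩ := hk (EuclideanSpace ℝ (Fin (k + 1))) (by simp; omega) (Subtype.val '' A)
    (hemb.measurableSet_image.2 hA) v (h1 v) c hc (hcε.trans_eq hcap) fun x hx _ => by
      choose z hz1 hz2 using hx
      by_contra hne
      push Not at hne
      obtain ⟨p, hp, hmin⟩ := (Finset.univ.filter fun p : Fin t × Fin t => p.1 ≠ p.2).exists_min_image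
        (fun p => dist (z p.1) (z p.2))
        ⟨(⟨0, by omega⟩, ⟨1, by omega⟩), by simp⟩
      have hp' : p.1 ≠ p.2 := (Finset.mem_filter.1 hp).2
      have h3 : dist (z p.1) (z p.2) ≤ dt t A := by
        refine le_csSup ⟨2, ?_⟩ ⟨z, hz1, fun i j hij => hmin (i, j) (by simpa using hij)⟩
        rintro r ⟨y, -, hy⟩
        refine (hy _ _ hp').trans ?_
        rw [Subtype.dist_eq, dist_eq_norm]
        exact (norm_sub_le _ _).trans (by rw [h1, h1]; norm_num)
      have h4 := hne _ _ hp'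
      rw [← hz2, ← hz2] at h4
      have h5 : 2 - 2 * BL.beta t c < dist (z p.1) (z p.2) ^ 2 := by
        rw [hsq]
        linarith
      have h6 := pow_le_pow_left₀ dist_nonneg (h3.trans (hd.trans hub)) 2
      rw [Real.sq_sqrt (by linarith)] at h6
      linarith
  refine ⟨⟨w, by simpa using hw⟩, ?_⟩
  rw [hcap, mu_eq hA, mu_eq (hA.symmDiff (hC _)), Set.image_symmDiff Subtype.val_injective,
    measureReal_congr ((Filter.EventuallyEq.refl _ _).symmDiff (cap_ae _ c))]
  exact h2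

/-- The inequality and its equality case, read off from `result`. -/
theorem equality_case (t : ℕ) (ht : 3 ≤ t) (ε : ℝ) (hε : 0 < ε) :
    ∃ k₀ : ℕ, ∀ k : ℕ, k₀ < k → ∀ A : Set (Sph k), MeasurableSet A →
      ∀ (v : Sph k) (c : ℝ), 0 < c → ε ≤ mu (cap v c) → dt t A ≤ dt t (cap v c) →
        mu A ≤ mu (cap v c) ∧ (mu A = mu (cap v c) → ∃ w : Sph k, mu (A ∆ cap w c) = 0) := by
  obtain ⟨K, hK, k₀, hk⟩ := result t ht ε hε
  refine ⟨k₀, fun k hk0 A hA v c hc hcε hd => ?_⟩
  obtain ⟨w, hw⟩ := hk k hk0 A hA v c hc hcε hd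
  have h0 : 0 ≤ mu (A ∆ cap w c) := div_nonneg ENNReal.toReal_nonneg ENNReal.toReal_nonneg
  refine ⟨sub_nonneg.1 ((mul_nonneg_iff_of_pos_left hK).1 (h0.trans hw)), fun h => ⟨w, ?_⟩⟩
  rw [h, sub_self, mul_zero] at hw
  exact le_antisymm hw h0

end Pool.Agent.Results.MP_edb112_gt.Stability
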